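import Pool.Agent.Helper38.RS.Defs

/-!
# The 2-adic logarithm near 1
-/

namespace Pool.Agent.Helper35.RS

open Pool.Agent.Helper51.SigLeo Pool.Agent.Helper38.RS

variable {k : Type} [NormedField k] [NormedAlgebra ℚ_[2] k]

theorem norm_nat (n : ℕ) : ‖(n : k)‖ = ‖(n : ℚ_[2])‖ := by
  rw [← map_natCast (algebraMap ℚ_[2] k) n, norm_algebraMap']

theorem norm_two : ‖(2 : k)‖ = 1 / 2 := by
  have h := norm_nat (k := k) 2
  have h2 : ‖((2 : ℕ) : ℚ_[2])‖ = ((2 : ℕ) : ℝ)⁻¹ := Padic.norm_p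
  rw [h2] at h
  push_cast at h
  rw [h]; norm_num

theorem one_le_norm_nat_mul (n : ℕ) (hn : 0 < n) : 1 ≤ ‖(n : k)‖ * n := by
  rw [norm_nat]
  have h0 : (n : ℚ_[2]) ≠ 0 := by exact_mod_cast hn.ne'
  rw [Padic.norm_eq_zpow_neg_valuation h0, Padic.valuation_natCast]
  have h1 : 2 ^ padicValNat 2 n ∣ n := pow_padicValNat_dvd
  have h2 : 2 ^ padicValNat 2 n ≤ n := Nat.le_of_dvd hn h1
  have h3 : (2 : ℝ) ^ padicValNat 2 n ≤ n := by exact_mod_cast h2
  rw [zpow_neg, zpow_natCast]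
  push_cast
  rw [inv_mul_eq_div, le_div_iff₀ (by positivity), one_mul]
  exact h3

variable [IsUltrametricDist k]

/-- The logarithm near 1. -/
theorem log_small (L : IwasawaLog 2 k) (r : kˣ) (n : ℕ) (hn : 1 ≤ n)
    (h : ‖(r : k) - 1‖ ≤ (1 / 2 : ℝ) ^ n) : ‖L.toFun r‖ ≤ (1 / 2 : ℝ) ^ n := by
  have hlt : ‖(r : k) - 1‖ < 1 := by
    refine h.trans_lt ?_
    exact pow_lt_one₀ (by norm_num) (by norm_num) (by omega)
  have hs := L.hasSum r hlt
  have hterm : ∀ i : ℕ, ‖(-1 : k) ^ i * ((r : k) - 1) ^ (i + 1) / (i + 1)‖ ≤ (1 / 2 : ℝ) ^ n := by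
    intro i
    rw [norm_div, norm_mul, norm_pow, norm_neg, norm_one, one_pow, one_mul, norm_pow]
    have h1 : 1 ≤ ‖((i + 1 : ℕ) : k)‖ * ((i + 1 : ℕ) : ℝ) := one_le_norm_nat_mul (i + 1) (by omega)
    push_cast at h1
    have hpos : 0 < ‖(i : k) + 1‖ := by
      by_contra hcon
      have : ‖(i : k) + 1‖ = 0 := le_antisymm (not_lt.1 hcon) (norm_nonneg _)
      rw [this] at h1
      norm_num at h1
    rw [div_le_iff₀ hpos]
    have h2 : ‖(r : k) - 1‖ ^ (i + 1) ≤ ((1 / 2 : ℝ) ^ n) ^ (i + 1) :=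
      pow_le_pow_left₀ (norm_nonneg _) h _
    refine h2.trans ?_
    rw [pow_succ]
    have h3 : ((1 / 2 : ℝ) ^ n) ^ i ≤ ‖(i : k) + 1‖ := by
      have h4 : ((1 / 2 : ℝ) ^ n) ^ i ≤ (1 / 2 : ℝ) ^ i := by
        rw [← pow_mul]
        apply pow_le_pow_of_le_one (by norm_num) (by norm_num)
        nlinarith
      have h5 : (1 / 2 : ℝ) ^ i * ((i : ℝ) + 1) ≤ 1 := by
        have h6 : i + 1 ≤ 2 ^ i := Nat.lt_pow_self (by norm_num)
        have h7 : ((i : ℝ) + 1) ≤ 2 ^ i := by exact_mod_cast h6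
        rw [one_div, inv_pow, inv_mul_eq_div, div_le_one (by positivity)]
        exact h7
      have h8 : (1 / 2 : ℝ) ^ i * ((i : ℝ) + 1) ≤ ‖(i : k) + 1‖ * ((i : ℝ) + 1) := h5.trans h1
      have h9 : (0 : ℝ) < (i : ℝ) + 1 := by positivity
      exact h4.trans (le_of_mul_le_mul_right h8 h9)
    rw [mul_comm]
    exact mul_le_mul_of_nonneg_left h3 (by positivity)
  refine le_of_tendsto hs.norm (Filter.Eventually.of_forall fun s => ?_)
  exact IsUltrametricDist.norm_sum_le_of_forall_le_of_nonneg (by positivity) fun i _ => hterm i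

end Pool.Agent.Helper35.RS
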