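import Pool.Agent.Helper38.RS.Goals2
import Pool.Agent.Helper35.RS.Log

/-!
# Square roots of elements close to 1
-/

namespace Pool.Agent.Helper35.RS

open NumberField Pool.Agent.Helper51.SigLeo Pool.Agent.Helper38.RS

/-- Newton iteration for the inverse square root. -/
noncomputable def newt {M : Type} [Field M] (z : M) : ℕ → M
  | 0 => 1
  | j + 1 => newt z j * (3 - z * newt z j ^ 2) / 2

theorem newt_err {M : Type} [Field M] [CharZero M] (z : M) (j : ℕ) :
    1 - z * newt z (j + 1) ^ 2 =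
      (1 - z * newt z j ^ 2) ^ 2 * (3 + (1 - z * newt z j ^ 2)) / 4 := by
  rw [newt]
  ring

theorem newt_small {k : Type} [NormedField k] [NormedAlgebra ℚ_[2] k] [IsUltrametricDist k]
    {M : Type} [Field M] [CharZero M] (τ : M →+* k) (z : M) (h : ‖τ z - 1‖ ≤ 1 / 8) (j : ℕ) :
    ‖τ (1 - z * newt z j ^ 2)‖ ≤ (1 / 2 : ℝ) ^ (j + 3) := by
  induction j with
  | zero =>
    rw [newt]
    have h1 : τ (1 - z * 1 ^ 2) = -(τ z - 1) := by
      rw [one_pow, mul_one, map_sub, map_one]; ring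
    rw [h1, norm_neg]
    refine h.trans ?_
    norm_num
  | succ j ih =>
    rw [newt_err]
    set e := 1 - z * newt z j ^ 2 with he
    have h2 : ‖(2 : k)‖ = 1 / 2 := norm_two
    have h4 : ‖(4 : k)‖ = 1 / 4 := by
      have : (4 : k) = 2 * 2 := by norm_num
      rw [this, norm_mul, h2]; norm_num
    have he8 : ‖τ e‖ ≤ 1 / 8 := by
      refine ih.trans ?_
      have : (1 / 2 : ℝ) ^ (j + 3) ≤ (1 / 2 : ℝ) ^ 3 :=
        pow_le_pow_of_le_one (by norm_num) (by norm_num) (by omega)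
      refine this.trans ?_
      norm_num
    have h3 : ‖3 + τ e‖ ≤ 1 := by
      have h5 : ‖((3 : ℕ) : k)‖ ≤ 1 := by
        rw [norm_nat]
        have h6 := Padic.norm_int_le_one (p := 2) 3
        exact_mod_cast h6
      have h6 : ‖(3 : k) + τ e‖ ≤ max ‖(3 : k)‖ ‖τ e‖ := IsUltrametricDist.norm_add_le_max _ _
      refine h6.trans (max_le ?_ (by linarith))
      exact_mod_cast h5
    rw [map_div₀, map_mul, map_pow, map_add, norm_div, norm_mul, norm_pow]
    have h7 : τ 3 = 3 := map_ofNat τ 3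
    have h8 : τ 4 = 4 := map_ofNat τ 4
    rw [h7, h8, h4]
    have h9 : ‖τ e‖ ^ 2 * ‖3 + τ e‖ ≤ ‖τ e‖ * (1 / 8) * 1 := by
      rw [pow_two]
      exact mul_le_mul (mul_le_mul_of_nonneg_left he8 (norm_nonneg _)) h3 (norm_nonneg _)
        (by positivity)
    rw [div_le_iff₀ (by norm_num)]
    calc ‖τ e‖ ^ 2 * ‖3 + τ e‖ ≤ ‖τ e‖ * (1 / 8) * 1 := h9
      _ ≤ (1 / 2 : ℝ) ^ (j + 3) * (1 / 8) := by
          rw [mul_one]
          exact mul_le_mul_of_nonneg_right ih (by norm_num)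
      _ = (1 / 2 : ℝ) ^ (j + 1 + 3) * (1 / 4) := by ring

theorem s_bin : S_BIN := by
  intro k _ _ _ L M _ _ T z hz N
  rcases Set.eq_empty_or_nonempty T with hT | ⟨τ₀, hτ₀⟩
  · refine ⟨1, fun τ hτ => ?_⟩
    rw [hT] at hτ
    exact absurd hτ (Set.notMem_empty τ)
  · have hne : newt (z : M) N ≠ 0 := by
      intro h0
      have h1 := newt_small τ₀ (z : M) (hz τ₀ hτ₀) N
      rw [h0] at h1
      have h2 : τ₀ (1 - (z : M) * 0 ^ 2) = 1 := by simp
      rw [h2, norm_one] at h1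
      have h3 : (1 / 2 : ℝ) ^ (N + 3) < 1 := pow_lt_one₀ (by norm_num) (by norm_num) (by omega)
      linarith
    refine ⟨Units.mk0 _ hne, fun τ hτ => ?_⟩
    have h1 := newt_small τ (z : M) (hz τ hτ) N
    set r : M := (z : M) * newt (z : M) N ^ 2 with hr
    have h2 : ‖τ r - 1‖ ≤ (1 / 2 : ℝ) ^ (N + 3) := by
      rw [map_sub, map_one] at h1
      rwa [norm_sub_rev]
    have h3 : ‖τ r‖ = 1 := by
      have h4 : ‖τ r - 1‖ < ‖(1 : k)‖ := by
        rw [norm_one]
        exact h2.trans_lt (pow_lt_one₀ (by norm_num) (by norm_num) (by omega))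
      have h5 : ‖(τ r - 1) + 1‖ = max ‖τ r - 1‖ ‖(1 : k)‖ :=
        IsUltrametricDist.norm_add_eq_max_of_norm_ne_norm h4.ne
      rw [sub_add_cancel, max_eq_right h4.le, norm_one] at h5
      exact h5
    constructor
    · exact h3
    · have h6 : ‖L.toFun (Units.map (τ : M →* k) (z * Units.mk0 _ hne ^ 2))‖ ≤
          (1 / 2 : ℝ) ^ (N + 3) := by
        apply log_small L _ (N + 3) (by omega)
        exact h2
      exact h6.trans (pow_le_pow_of_le_one (by norm_num) (by norm_num) (by omega))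

end Pool.Agent.Helper35.RS
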