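import Pool.Agent.Helper35.RS.Log
import Pool.Agent.Helper51.SigLeo.Modulus

/-!
# Quadratic extensions: coordinates and extension of embeddings
-/

namespace Pool.Agent.Helper35.RS

open NumberField Module

section coord

variable {M H : Type} [Field M] [Field H] [CharZero H] [Algebra M H] {s : H} {γ : H →+* H}

/-- Uniqueness of the coordinates. -/
theorem coord_uniq (hs0 : s ≠ 0) (hγs : γ s = -s)
    (hγM : ∀ x : M, γ (algebraMap M H x) = algebraMap M H x) {α β α' β' : M}
    (h : algebraMap M H α + algebraMap M H β * s = algebraMap M H α' + algebraMap M H β' * s) :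
    α = α' ∧ β = β' := by
  have h1 := congrArg γ h
  rw [map_add, map_mul, hγM, hγM, hγs, map_add, map_mul, hγM, hγM, hγs] at h1
  have h2 : (2 : H) * algebraMap M H α = 2 * algebraMap M H α' := by linear_combination h + h1
  have h3 : algebraMap M H α = algebraMap M H α' := mul_left_cancel₀ two_ne_zero h2
  have h4 : algebraMap M H β * s = algebraMap M H β' * s := by
    rw [h3] at h
    exact add_left_cancel h
  exact ⟨(algebraMap M H).injective h3, (algebraMap M H).injective (mul_right_cancel₀ hs0 h4)⟩

/-- Existence of the coordinates. -/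
theorem coord_exists (hdeg : finrank M H = 2) (hs0 : s ≠ 0) (hγs : γ s = -s)
    (hγM : ∀ x : M, γ (algebraMap M H x) = algebraMap M H x) (h : H) :
    ∃ α β : M, h = algebraMap M H α + algebraMap M H β * s := by
  have hli : LinearIndependent M ![(1 : H), s] := by
    rw [LinearIndependent.pair_iff]
    intro α β hab
    rw [Algebra.smul_def, Algebra.smul_def, mul_one] at hab
    have h0 : algebraMap M H α + algebraMap M H β * s =
        algebraMap M H 0 + algebraMap M H 0 * s := by
      rw [hab]; simp
    exact coord_uniq hs0 hγs hγM h0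
  have hfin : FiniteDimensional M H := by
    apply FiniteDimensional.of_finrank_pos
    rw [hdeg]; norm_num
  have hspan : Submodule.span M (Set.range ![(1 : H), s]) = ⊤ :=
    hli.span_eq_top_of_card_eq_finrank' (by simp [hdeg])
  have hmem : h ∈ Submodule.span M (Set.range ![(1 : H), s]) := by rw [hspan]; trivial
  have hr : Set.range ![(1 : H), s] = {1, s} := by
    rw [Matrix.range_cons, Matrix.range_cons, Matrix.range_empty, Set.union_empty]
    rfl
  rw [hr, Submodule.mem_span_pair] at hmem
  obtain ⟨α, β, hab⟩ := hmem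
  refine ⟨α, β, ?_⟩
  rw [← hab, Algebra.smul_def, Algebra.smul_def, mul_one]

/-- The elements fixed by `γ`. -/
theorem mem_of_fixed (hdeg : finrank M H = 2) (hs0 : s ≠ 0) (hγs : γ s = -s)
    (hγM : ∀ x : M, γ (algebraMap M H x) = algebraMap M H x) {h : H} (hh : γ h = h) :
    ∃ x : M, algebraMap M H x = h := by
  obtain ⟨α, β, rfl⟩ := coord_exists hdeg hs0 hγs hγM h
  rw [map_add, map_mul, hγM, hγM, hγs] at hh
  have h1 : (2 : H) * (algebraMap M H β * s) = 0 := by linear_combination -hh
  have h2 : algebraMap M H β * s = 0 := (mul_eq_zero.1 h1).resolve_left two_ne_zero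
  exact ⟨α, by rw [h2, add_zero]⟩

/-- Extension of an embedding. -/
theorem exists_ext {k : Type} [Field k] (hdeg : finrank M H = 2) (hs0 : s ≠ 0) (hγs : γ s = -s)
    (hγM : ∀ x : M, γ (algebraMap M H x) = algebraMap M H x) (a : M)
    (hsq : s ^ 2 = algebraMap M H a) (τ : M →+* k) (l : k) (hl : l ^ 2 = τ a) :
    ∃ τ' : H →+* k, τ'.comp (algebraMap M H) = τ ∧ τ' s = l := by
  choose A B hAB using coord_exists (M := M) hdeg hs0 hγs hγM
  have huniq : ∀ (h : H) (α β : M), h = algebraMap M H α + algebraMap M H β * s →
      A h = α ∧ B h = β := fun h α β e =>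
    coord_uniq hs0 hγs hγM ((hAB h).symm.trans e)
  have h1 := huniq 1 1 0 (by simp)
  have h0 := huniq 0 0 0 (by simp)
  have hadd : ∀ x y, A (x + y) = A x + A y ∧ B (x + y) = B x + B y := fun x y =>
    huniq (x + y) _ _ (by
      conv_lhs => rw [hAB x, hAB y]
      rw [map_add, map_add]; ring)
  have hmul : ∀ x y, A (x * y) = A x * A y + a * (B x * B y) ∧
      B (x * y) = A x * B y + B x * A y := fun x y =>
    huniq (x * y) _ _ (by
      conv_lhs => rw [hAB x, hAB y]
      simp only [map_add, map_mul]
      linear_combination (algebraMap M H (B x) * algebraMap M H (B y)) * hsq)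
  refine ⟨{ toFun := fun h => τ (A h) + τ (B h) * l
            map_one' := ?_
            map_mul' := ?_
            map_zero' := ?_
            map_add' := ?_ }, ?_, ?_⟩
  · rw [h1.1, h1.2]; simp
  · intro x y
    rw [(hmul x y).1, (hmul x y).2]
    simp only [map_add, map_mul]
    linear_combination -(τ (B x) * τ (B y)) * hl
  · rw [h0.1, h0.2]; simp
  · intro x y
    rw [(hadd x y).1, (hadd x y).2]
    simp only [map_add]
    ring
  · ext x
    have := huniq (algebraMap M H x) x 0 (by simp)
    simp [this.1, this.2]
  · have := huniq s 0 1 (by simp)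
    simp [this.1, this.2]

end coord

end Pool.Agent.Helper35.RS
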