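import Pool.Agent.Helper38.RS.Goals1
import Pool.Agent.Helper35.RS.Quad

/-!
# From units to Selmer elements
-/

namespace Pool.Agent.Helper35.RS

open NumberField Polynomial Module IsDedekindDomain Pool.Agent.Helper51.SigLeo
  Pool.Agent.Helper38.RS Filter Topology

/-- The limit of the images of the approximate square roots. -/
theorem exists_limit {k : Type} [NormedField k] [NormedAlgebra ℚ_[2] k] [IsUltrametricDist k]
    [CompleteSpace k] {K : Type} [Field K] [NumberField K] (σ : K →+* k) (a : 𝓞 K) (S : ℕ → 𝓞 K)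
    (hS1 : ∀ N, (2 : 𝓞 K) ^ N ∣ S N ^ 2 - a) (hS2 : ∀ N, (2 : 𝓞 K) ^ N ∣ S (N + 1) - S N) :
    ∃ l : k, l ^ 2 = σ a ∧ Tendsto (fun j => σ (S j : K)) atTop (𝓝 l) := by
  have hint : ∀ x : 𝓞 K, ‖σ (x : K)‖ ≤ 1 := fun x => norm_map_le_one 2 σ x.isIntegral_coe
  have h2 : ‖(2 : k)‖ = 1 / 2 := norm_two
  have hdvd : ∀ (N : ℕ) (x : 𝓞 K), (2 : 𝓞 K) ^ N ∣ x → ‖σ (x : K)‖ ≤ (1 / 2 : ℝ) ^ N := by
    intro N x hx
    obtain ⟨y, rfl⟩ := hx
    have h3 : σ (((2 : 𝓞 K) ^ N * y : 𝓞 K) : K) = 2 ^ N * σ (y : K) := by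
      rw [RingOfIntegers.coe_eq_algebraMap, RingOfIntegers.coe_eq_algebraMap, map_mul, map_pow,
        map_ofNat, map_mul, map_pow, map_ofNat]
    rw [h3, norm_mul, norm_pow, h2]
    exact mul_le_of_le_one_right (by positivity) (hint y)
  have hc : CauchySeq (fun j => σ (S j : K)) := by
    apply cauchySeq_of_le_geometric (1 / 2) 1 (by norm_num)
    intro n
    rw [dist_eq_norm, norm_sub_rev, one_mul]
    have := hdvd n _ (hS2 n)
    rwa [RingOfIntegers.coe_eq_algebraMap, map_sub, map_sub] at this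
  obtain ⟨l, hl⟩ := cauchySeq_tendsto_of_complete hc
  refine ⟨l, ?_, hl⟩
  have h3 : Tendsto (fun j => σ (S j : K) ^ 2 - σ (a : K)) atTop (𝓝 (l ^ 2 - σ (a : K))) :=
    (hl.pow 2).sub tendsto_const_nhds
  have h4 : Tendsto (fun j => σ (S j : K) ^ 2 - σ (a : K)) atTop (𝓝 0) := by
    apply squeeze_zero_norm (a := fun j => (1 / 2 : ℝ) ^ j)
    · intro j
      have := hdvd j _ (hS1 j)
      rwa [RingOfIntegers.coe_eq_algebraMap, map_sub, map_sub, map_pow, map_pow] at this
    · exact tendsto_pow_atTop_nhds_zero_of_lt_one (by norm_num) (by norm_num)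
  exact sub_eq_zero.1 (tendsto_nhds_unique h3 h4)

theorem s_hil (h1 : S_SQR) (h2 : S_RAM) (h3 : S_TAM) : S_HIL := by
  intro k _ _ _ _ L K M H _ _ _ _ _ _ _ _ _ _ m δ γ δ' T a s P D u hu hub hP hlog
  have hck : CharZero k := charZero_of_injective_algebraMap (algebraMap ℚ_[2] k).injective
  -- basic facts
  have haK : (a : K) ≠ 0 := fun h => D.ne (RingOfIntegers.ext h)
  set aM : M := algebraMap K M (a : K) with haM
  have haM0 : aM ≠ 0 := by
    rw [haM]
    exact (map_ne_zero_iff _ (algebraMap K M).injective).2 haK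
  have hsq : s ^ 2 = algebraMap M H aM := by
    rw [D.sq, haM, ← IsScalarTower.algebraMap_apply K M H]
  have hs0 : s ≠ 0 := by
    intro h
    rw [h] at hsq
    have : algebraMap M H aM = 0 := by rw [← hsq]; simp
    exact haM0 ((algebraMap M H).injective (by rw [this, map_zero]))
  set g : H →+* H := (γ : H →+* H) with hg
  have hgv : ∀ x, g x = γ x := fun _ => rfl
  have hγs : g s = -s := D.γs
  have hγM : ∀ x : M, g (algebraMap M H x) = algebraMap M H x := D.γM
  have hcoord := coord_exists D.degH hs0 hγs hγM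
  have hfix : ∀ {h : H}, γ h = h → ∃ x : M, algebraMap M H x = h := fun hh =>
    mem_of_fixed D.degH hs0 hγs hγM hh
  have hinj : Function.Injective (algebraMap M H) := (algebraMap M H).injective
  have hcomm : ∀ h : H, γ (δ' h) = δ' (γ h) := by
    intro h
    obtain ⟨α, β, rfl⟩ := hcoord h
    simp only [map_add, map_mul, D.γM, D.δM, D.γs, D.δs, map_neg]
  have hcommj : ∀ (j : ℕ) (h : H), γ ((δ' ^ j) h) = (δ' ^ j) (γ h) := by
    intro j
    induction j with
    | zero => intro h; simp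
    | succ j ih =>
      intro h
      rw [pow_succ', AlgEquiv.mul_apply, hcomm, ih, AlgEquiv.mul_apply]
  have hδMj : ∀ (j : ℕ) (x : M), (δ' ^ j) (algebraMap M H x) = algebraMap M H ((δ ^ j) x) := by
    intro j
    induction j with
    | zero => intro x; simp
    | succ j ih =>
      intro x
      rw [pow_succ', AlgEquiv.mul_apply, ih, D.δM, pow_succ', AlgEquiv.mul_apply]
  -- the element y
  set u0 : H := (u 0 : H) with hu0
  have hu00 : u0 ≠ 0 := by
    intro h
    have := hu 0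
    rw [← hu0, h, zero_mul] at this
    exact zero_ne_one this
  have hγγ : γ (γ u0) = u0 := by
    have h4 := hu 0
    rw [← hu0] at h4
    have h5 := congrArg γ h4
    rw [map_mul, map_one] at h5
    have h6 : γ u0 ≠ 0 := (map_ne_zero_iff _ γ.injective).2 hu00
    apply mul_left_cancel₀ h6
    rw [h5, mul_comm, h4]
  obtain ⟨y, hy0, hy⟩ : ∃ y : H, y ≠ 0 ∧ γ y = u0 * y := by
    by_cases hm : u0 = -1
    · exact ⟨s, hs0, by rw [hm, D.γs]; ring⟩
    · refine ⟨1 + γ u0, ?_, ?_⟩
      · intro h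
        have h4 : γ u0 = -1 := by linear_combination h
        apply hm
        have h5 := hγγ
        rw [h4, map_neg, map_one] at h5
        exact h5.symm
      · have h4 := hu 0
        rw [← hu0] at h4
        rw [map_add, map_one, hγγ, mul_add, mul_one, h4]
        ring
  have hγy : γ (γ y) = y := by
    rw [hy, map_mul, hy]
    have h4 := hu 0
    rw [← hu0] at h4
    linear_combination y * h4
  obtain ⟨x, hx⟩ := hfix (h := y * γ y) (by rw [map_mul, hγy, mul_comm])
  have hx' : algebraMap M H x = u0 * y ^ 2 := by rw [hx, hy]; ring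
  have hx0 : x ≠ 0 := by
    intro h
    rw [h, map_zero] at hx'
    exact mul_ne_zero hu00 (pow_ne_zero 2 hy0) hx'.symm
  refine ⟨Units.mk0 x hx0, ⟨?_, ?_, ?_, ?_⟩, ?_⟩
  · -- the polynomial condition
    obtain ⟨b, hb1, hb2⟩ := hP
    set Y : H := ∏ j ∈ P.support, (δ' ^ j) y with hY
    have hY0 : Y ≠ 0 := by
      rw [hY, Finset.prod_ne_zero_iff]
      intro j _
      exact (map_ne_zero_iff _ (δ' ^ j).injective).2 hy0
    have hb0 : (b : H) ≠ 0 := by
      intro h
      rw [h, zero_mul] at hb1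
      exact zero_ne_one hb1
    have hγY : γ Y = (b : H) ^ 2 * Y := by
      rw [hY, map_prod, ← hb2, ← Finset.prod_mul_distrib]
      apply Finset.prod_congr rfl
      intro j _
      rw [hcommj, hy, map_mul]
    obtain ⟨t, ht⟩ := hfix (h := (b : H) * Y) (by
      rw [map_mul, hγY]
      linear_combination (b : H) * Y * hb1)
    have ht0 : t ≠ 0 := by
      intro h
      rw [h, map_zero] at ht
      exact mul_ne_zero hb0 hY0 ht.symm
    refine ⟨Units.mk0 t ht0, ?_⟩
    apply Units.ext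
    apply hinj
    rw [Units.val_pow_eq_pow_val, Units.val_mk0, map_pow, ht]
    have h4 : ((pol P δ (Units.mk0 x hx0) : Mˣ) : M) = ∏ j ∈ P.support, (δ ^ j) x := by
      unfold pol
      rw [MonoidHom.finsetProd_apply, Units.coe_prod]
      rfl
    rw [h4, map_prod]
    have h5 : ∏ j ∈ P.support, algebraMap M H ((δ ^ j) x) =
        ∏ j ∈ P.support, ((δ' ^ j) u0 * ((δ' ^ j) y) ^ 2) := by
      apply Finset.prod_congr rfl
      intro j _
      rw [← hδMj, hx', map_mul, map_pow]
    rw [h5, Finset.prod_mul_distrib, hb2, Finset.prod_pow, ← hY]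
    ring
  · -- even valuations
    intro v hv
    set γM : H ≃ₐ[M] H := AlgEquiv.ofRingEquiv (f := (γ : H ≃+* H)) (fun r => D.γM r) with hγMd
    have hγMv : ∀ z, γM z = γ z := fun _ => rfl
    exact h2 K M H a s γM D.ne D.adm D.degH hsq (by rw [hγMv, D.γs]) (Units.mk0 y hy0) (u 0) x
      (by rw [hγMv]; exact hy) (by rw [hγMv]; exact hx) v hv
  · -- tame
    intro v hv
    obtain ⟨α, β, hαβ⟩ := hcoord y
    have h4 : x = α ^ 2 - aM * β ^ 2 := by
      apply hinj
      rw [hx, hαβ]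
      simp only [map_add, map_mul, map_sub, map_pow, D.γM, D.γs]
      rw [← hsq]
      ring
    rw [Units.val_mk0]
    have h5 : α ^ 2 - aM * β ^ 2 ≠ 0 := by rw [← h4]; exact hx0
    rw [h4]
    exact h3 M v aM α β hv h5
  · -- the logarithmic condition
    intro N
    obtain ⟨b, hb1, hb2⟩ := hub N
    obtain ⟨S, hS1, hS2, _⟩ := h1 K a D.adm
    have hb0 : (b : H) ≠ 0 := by
      intro h
      rw [h, zero_mul] at hb1
      exact zero_ne_one hb1
    set y' : H := y * (b : H)⁻¹ with hy'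
    have hy'0 : y' ≠ 0 := mul_ne_zero hy0 (inv_ne_zero hb0)
    have hxN : algebraMap M H x = (u N : H) * y' ^ 2 := by
      have h4 : (u N : H) = u0 * (b : H) ^ 2 := by
        rw [hb2]; push_cast; rfl
      rw [h4, hx', hy']
      field_simp
    obtain ⟨α, β, hαβ⟩ := hcoord y'
    -- the extension of every embedding, and the index
    have hkey : ∀ q : {τ : M →+* k // τ ∈ (above T : Set (M →+* k))}, ∃ τ' : H →+* k,
        τ'.comp (algebraMap M H) = q.1 ∧ ∀ᶠ j in atTop,
          ‖τ' y' - q.1 (α + β * algebraMap K M (S j : K))‖ ≤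
            ‖τ' y'‖ * (1 / 2 : ℝ) ^ (N + 1) := by
      rintro ⟨τ, _⟩
      change ∃ τ' : H →+* k, τ'.comp (algebraMap M H) = τ ∧ ∀ᶠ j in atTop,
          ‖τ' y' - τ (α + β * algebraMap K M (S j : K))‖ ≤ ‖τ' y'‖ * (1 / 2 : ℝ) ^ (N + 1)
      obtain ⟨l, hl, hlim⟩ := exists_limit (τ.comp (algebraMap K M)) a S hS1 hS2
      obtain ⟨τ', hτ', hτs⟩ := exists_ext D.degH hs0 hγs hγM aM hsq τ l hl
      refine ⟨τ', hτ', ?_⟩
      have h4 : Tendsto (fun j => τ' y' - τ (α + β * algebraMap K M (S j : K))) atTop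
          (𝓝 (τ' y' - (τ α + τ β * l))) := by
        have h5 : Tendsto (fun j => τ' y' - (τ α + τ β * (τ.comp (algebraMap K M)) (S j : K)))
            atTop (𝓝 (τ' y' - (τ α + τ β * l))) :=
          tendsto_const_nhds.sub (tendsto_const_nhds.add (tendsto_const_nhds.mul hlim))
        refine h5.congr fun j => ?_
        have h6 : τ (α + β * algebraMap K M (S j : K)) =
            τ α + τ β * (τ.comp (algebraMap K M)) (S j : K) := by
          rw [map_add, map_mul]
          rfl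
        rw [h6]
      have h5 : τ' y' - (τ α + τ β * l) = 0 := by
        rw [hαβ, map_add, map_mul, hτs, ← hτ']
        simp
      rw [h5] at h4
      have h6 : Tendsto (fun j => ‖τ' y' - τ (α + β * algebraMap K M (S j : K))‖) atTop (𝓝 0) := by
        have := h4.norm
        rwa [norm_zero] at this
      have h7 : 0 < ‖τ' y'‖ * (1 / 2 : ℝ) ^ (N + 1) := by
        have : 0 < ‖τ' y'‖ := norm_pos_iff.2 ((map_ne_zero_iff _ τ'.injective).2 hy'0)
        positivity
      filter_upwards [h6.eventually (Iio_mem_nhds h7)] with j hj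
      exact le_of_lt hj
    choose ext hext hev using hkey
    have hall : ∀ᶠ j in atTop, ∀ q : {τ : M →+* k // τ ∈ (above T : Set (M →+* k))},
        ‖ext q y' - q.1 (α + β * algebraMap K M (S j : K))‖ ≤
          ‖ext q y'‖ * (1 / 2 : ℝ) ^ (N + 1) := by
      have hF : Finite {τ : M →+* k // τ ∈ (above T : Set (M →+* k))} := inferInstance
      rw [eventually_all]
      exact hev
    obtain ⟨j, hj⟩ := hall.exists
    set d : M := α + β * algebraMap K M (S j : K) with hd
    by_cases hd0 : d = 0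
    · refine ⟨1, fun τ hτ => ?_⟩
      exfalso
      have h4 := hj ⟨τ, hτ⟩
      change ‖ext ⟨τ, hτ⟩ y' - τ d‖ ≤ _ at h4
      rw [hd0, map_zero, sub_zero] at h4
      have h5 : 0 < ‖ext ⟨τ, hτ⟩ y'‖ :=
        norm_pos_iff.2 ((map_ne_zero_iff _ (ext ⟨τ, hτ⟩).injective).2 hy'0)
      have h6 : (1 / 2 : ℝ) ^ (N + 1) < 1 := pow_lt_one₀ (by norm_num) (by norm_num) (by omega)
      nlinarith
    · refine ⟨(Units.mk0 d hd0)⁻¹, fun τ hτ => ?_⟩
      have h4 := hj ⟨τ, hτ⟩
      have hext' := hext ⟨τ, hτ⟩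
      set τ' := ext ⟨τ, hτ⟩ with hτ'
      change ‖τ' y' - τ d‖ ≤ _ at h4
      change τ'.comp (algebraMap M H) = τ at hext'
      have hτ'M : ∀ z : M, τ' (algebraMap M H z) = τ z := fun z => by
        have := RingHom.congr_fun hext' z
        exact this
      have hτ'mem : τ' ∈ (above (above T : Set (M →+* k)) : Set (H →+* k)) := by
        change τ'.comp (algebraMap M H) ∈ above T
        rw [hext']
        exact hτ
      have hpos : 0 < ‖τ' y'‖ := norm_pos_iff.2 ((map_ne_zero_iff _ τ'.injective).2 hy'0)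
      have hlt : (1 / 2 : ℝ) ^ (N + 1) < 1 := pow_lt_one₀ (by norm_num) (by norm_num) (by omega)
      have hτd0 : τ d ≠ 0 := (map_ne_zero_iff _ τ.injective).2 hd0
      have hnd : ‖τ d‖ = ‖τ' y'‖ := by
        have h5 : ‖τ d - τ' y'‖ < ‖τ' y'‖ := by
          rw [norm_sub_rev]
          refine h4.trans_lt ?_
          nlinarith
        have h6 : ‖(τ d - τ' y') + τ' y'‖ = max ‖τ d - τ' y'‖ ‖τ' y'‖ :=
          IsUltrametricDist.norm_add_eq_max_of_norm_ne_norm h5.ne
        rwa [sub_add_cancel, max_eq_right h5.le] at h6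
      set r : k := τ' y' / τ d with hr
      have hτy0 : τ' y' ≠ 0 := norm_pos_iff.1 hpos
      have hr0 : r ≠ 0 := div_ne_zero hτy0 hτd0
      have hr1 : ‖r - 1‖ ≤ (1 / 2 : ℝ) ^ (N + 1) := by
        have h5 : r - 1 = (τ' y' - τ d) / τ d := by
          rw [hr]; field_simp
        rw [h5, norm_div, hnd, div_le_iff₀ hpos]
        linarith [h4, mul_comm (‖τ' y'‖) ((1 / 2 : ℝ) ^ (N + 1))]
      have hrn : ‖r‖ = 1 := by
        rw [hr, norm_div, hnd, div_self hpos.ne']
      -- the unit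
      have hun : ‖τ' (u N : H)‖ = 1 := by
        have h5 : ‖τ' ((u N : 𝓞 H) : H)‖ ≤ 1 := norm_map_le_one 2 τ' (u N : 𝓞 H).isIntegral_coe
        have h6 : ‖τ' (((u N)⁻¹ : (𝓞 H)ˣ) : H)‖ ≤ 1 :=
          norm_map_le_one 2 τ' (((u N)⁻¹ : (𝓞 H)ˣ) : 𝓞 H).isIntegral_coe
        have h7 : τ' (u N : H) * τ' (((u N)⁻¹ : (𝓞 H)ˣ) : H) = 1 := by
          rw [← map_mul]
          have h8 : (u N : H) * (((u N)⁻¹ : (𝓞 H)ˣ) : H) = 1 := by
            simp
          rw [h8, map_one]
        have h8 : ‖τ' (u N : H)‖ * ‖τ' (((u N)⁻¹ : (𝓞 H)ˣ) : H)‖ = 1 := by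
          rw [← norm_mul, h7, norm_one]
        nlinarith [norm_nonneg (τ' (u N : H)), norm_nonneg (τ' (((u N)⁻¹ : (𝓞 H)ˣ) : H))]
      set ruN : kˣ := Units.map ((τ'.comp (algebraMap (𝓞 H) H) : 𝓞 H →+* k) : 𝓞 H →* k) (u N)
        with hruN
      set rr : kˣ := Units.mk0 r hr0 with hrr
      have heq : Units.map (τ : M →* k) (Units.mk0 x hx0 * (Units.mk0 d hd0)⁻¹ ^ 2) =
          ruN * (rr * rr) := by
        apply Units.ext
        have h5 : τ x = τ' (u N : H) * (τ' y') ^ 2 := by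
          rw [← hτ'M, hxN, map_mul, map_pow]
        have h6 : (ruN : k) = τ' (u N : H) := rfl
        have h7 : ((Units.map (τ : M →* k) (Units.mk0 x hx0 * (Units.mk0 d hd0)⁻¹ ^ 2) : kˣ) : k) =
            τ x * (τ d)⁻¹ ^ 2 := by
          simp
        rw [h7, Units.val_mul, Units.val_mul, h6, hrr, Units.val_mk0, h5, hr]
        field_simp
      constructor
      · have h5 := congrArg (fun z : kˣ => ‖(z : k)‖) heq
        have h6 : ‖τ ((Units.mk0 x hx0 * (Units.mk0 d hd0)⁻¹ ^ 2 : Mˣ) : M)‖ =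
            ‖(ruN * (rr * rr) : kˣ).val‖ := h5
        rw [h6, Units.val_mul, Units.val_mul, norm_mul, norm_mul]
        have h7 : ‖(ruN : k)‖ = 1 := hun
        have h8 : ‖(rr : k)‖ = 1 := hrn
        rw [h7, h8]; norm_num
      · rw [heq, L.map_mul, L.map_mul]
        have h5 : ‖L.toFun ruN‖ ≤ (1 / 2 : ℝ) ^ N := hlog N τ' hτ'mem
        have h6 : ‖L.toFun rr‖ ≤ (1 / 2 : ℝ) ^ (N + 1) := log_small L rr (N + 1) (by omega) hr1
        have h7 : (1 / 2 : ℝ) ^ (N + 1) ≤ (1 / 2 : ℝ) ^ N :=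
          pow_le_pow_of_le_one (by norm_num) (by norm_num) (by omega)
        have h8 : ‖L.toFun rr + L.toFun rr‖ ≤ (1 / 2 : ℝ) ^ N :=
          (IsUltrametricDist.norm_add_le_max _ _).trans (max_le (h6.trans h7) (h6.trans h7))
        exact (IsUltrametricDist.norm_add_le_max _ _).trans (max_le h5 h8)
  · -- squares
    rintro ⟨w, hw⟩
    have hw' : x = (w : M) ^ 2 := by
      have := congrArg (fun z : Mˣ => (z : M)) hw
      simpa using this
    set t : H := algebraMap M H (w : M) / y with ht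
    have ht2 : t ^ 2 = u0 := by
      rw [ht, div_pow, ← map_pow, ← hw', hx']
      field_simp
    have ht0 : t ≠ 0 := by
      intro h
      rw [h] at ht2
      apply hu00
      rw [← ht2]; ring
    have hti : IsIntegral ℤ t := by
      apply IsIntegral.of_pow (n := 2) (by norm_num)
      rw [ht2]
      exact (u 0 : 𝓞 H).isIntegral_coe
    have hti' : IsIntegral ℤ t⁻¹ := by
      apply IsIntegral.of_pow (n := 2) (by norm_num)
      have h4 : t⁻¹ ^ 2 = (((u 0)⁻¹ : (𝓞 H)ˣ) : H) := by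
        rw [inv_pow, ht2, hu0]
        apply inv_eq_of_mul_eq_one_right
        simp
      rw [h4]
      exact (((u 0)⁻¹ : (𝓞 H)ˣ) : 𝓞 H).isIntegral_coe
    refine ⟨⟨⟨t, hti⟩, ⟨t⁻¹, hti'⟩, ?_, ?_⟩, ?_, ?_⟩
    · apply RingOfIntegers.ext
      change t * t⁻¹ = 1
      exact mul_inv_cancel₀ ht0
    · apply RingOfIntegers.ext
      change t⁻¹ * t = 1
      exact inv_mul_cancel₀ ht0
    · change t * γ t = 1
      have hγy0 : γ y ≠ 0 := (map_ne_zero_iff _ γ.injective).2 hy0
      rw [ht, map_div₀, D.γM, div_mul_div_comm, ← pow_two, ← map_pow, ← hw', hx]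
      exact div_self (mul_ne_zero hy0 hγy0)
    · apply Units.ext
      apply RingOfIntegers.ext
      have h4 : ((u 0 : 𝓞 H) : H) = t ^ 2 := ht2.symm
      rw [h4]
      push_cast
      rfl

end Pool.Agent.Helper35.RS
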